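import Pool.Agent.L5helper12.TW.Tele

/-! From the zeros up to height `T` to the dyadic blocks. -/

set_option autoImplicit false

open Filter Topology Complex MeasureTheory

namespace Pool.Agent.L5helper41.CV

open H370 TH803TW Pool.Agent.Results.MP_103a5c_nt.BohrSetPairs
open Pool.Agent.L5helper12.TW
open Pool.Agent.Y744 (mz mz_nonneg Zt Zb mem_Zt mem_Zb QS Xf Xf_pos QS_abs_bound QS_far_bound
  QS_le_abs split_pairs near_bound PP1_Zt_step PP1_anti Q2 QS_split)

/-- **the dyadic blocks** -/
theorem QS_of_Q2 {R : ℝ → ℝ} {κ : ℝ} {f : ℝ → ℝ} (h : T4 R κ f) (c : ℝ)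
    (hlim : Tendsto (fun T => Q2 f T (Real.log T) / Xf T) atTop (𝓝 c)) :
    Tendsto (fun V => QS (Zb V (2 * V)) (Zb V (2 * V)) mz (fun s => s.im) f (Real.log V) / Xf V)
      atTop (𝓝 c) := by
  obtain ⟨C, B0, V0, hC, hB0, hV0, hblk, hloc⟩ := PP_bd
  obtain ⟨C1, hC1, hs⟩ := h.scale
  set σ : ℝ := Real.log 2 with hσd
  have hσ : 0 ≤ σ := Real.log_nonneg (by norm_num)
  have hinv : Tendsto (fun V : ℝ => (Real.log V)⁻¹) atTop (𝓝 0) :=
    tendsto_inv_atTop_zero.comp Real.tendsto_log_atTop
  -- the scale change on the block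
  have h2 : Tendsto (fun V => (QS (Zb V (2 * V)) (Zb V (2 * V)) mz (fun s => s.im) f
      (Real.log V + σ) - QS (Zb V (2 * V)) (Zb V (2 * V)) mz (fun s => s.im) f (Real.log V)) /
      Xf V) atTop (𝓝 0) := by
    have h3 : Tendsto (fun V : ℝ => 3200 * C1 * σ * C * (2 * Real.pi) * (Real.log V)⁻¹) atTop
        (𝓝 (3200 * C1 * σ * C * (2 * Real.pi) * 0)) := hinv.const_mul _
    rw [mul_zero] at h3
    refine squeeze_zero_norm' ?_ h3
    filter_upwards [eventually_ge_atTop V0] with V hV
    have hV20 : 20 ≤ V := hV0.trans hV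
    have hL : 0 < Real.log V := Real.log_pos (by linarith)
    have hX := Xf_pos (V := V) (by linarith)
    have h4 := scale_err (x := fun s : ℂ => s.im) (Zb V (2 * V)) mz_nonneg hC1 hs hL
      (s := 1 + σ / Real.log V) (by
        have : 0 ≤ σ / Real.log V := by positivity
        linarith)
    have e1 : (1 + σ / Real.log V) * Real.log V = Real.log V + σ := by field_simp
    rw [e1] at h4
    rw [Real.norm_eq_abs, abs_div, abs_of_pos hX, div_le_iff₀ hX]
    refine h4.trans ((mul_le_mul_of_nonneg_left (hblk V hV) ?_).trans (le_of_eq ?_))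
    · have : 0 ≤ σ / Real.log V := by positivity
      have h5 : 0 ≤ C1 * (1 + σ / Real.log V - 1) := mul_nonneg hC1 (by linarith)
      linarith
    · unfold Xf
      have hpi := Real.pi_pos
      field_simp
      ring
  -- the scale change on the zeros up to `V`
  have h2' : Tendsto (fun V => (Q2 f V (Real.log V + σ) - Q2 f V (Real.log V)) / Xf V) atTop
      (𝓝 0) := by
    have h3 : Tendsto (fun V : ℝ => 3200 * C1 * σ * (C + 1) * (2 * Real.pi) * (Real.log V)⁻¹) atTop
        (𝓝 (3200 * C1 * σ * (C + 1) * (2 * Real.pi) * 0)) := hinv.const_mul _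
    rw [mul_zero] at h3
    refine squeeze_zero_norm' ?_ h3
    filter_upwards [eventually_ge_atTop V0, eventually_ge_atTop B0] with V hV hVB
    have hV20 : 20 ≤ V := hV0.trans hV
    have hL : 0 < Real.log V := Real.log_pos (by linarith)
    have hL1 : 1 ≤ Real.log V := by
      rw [Real.le_log_iff_exp_le (by linarith)]
      linarith [Real.exp_one_lt_d9]
    have hX := Xf_pos (V := V) (by linarith)
    have h4 := scale_err (x := fun s : ℂ => s.im) (Zt V) mz_nonneg hC1 hs hL
      (s := 1 + σ / Real.log V) (by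
        have : 0 ≤ σ / Real.log V := by positivity
        linarith)
    have e1 : (1 + σ / Real.log V) * Real.log V = Real.log V + σ := by field_simp
    rw [e1] at h4
    have h6 : PP1 (Zt V) mz (fun s => s.im) (Real.log V) ≤ (C + 1) * (V * Real.log V) := by
      refine (hloc V hV (Real.log V) le_rfl).trans ?_
      have : V ≤ V * Real.log V := by nlinarith
      linarith
    rw [Real.norm_eq_abs, abs_div, abs_of_pos hX, div_le_iff₀ hX]
    refine h4.trans ((mul_le_mul_of_nonneg_left h6 ?_).trans (le_of_eq ?_))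
    · have : 0 ≤ σ / Real.log V := by positivity
      have h5 : 0 ≤ C1 * (1 + σ / Real.log V - 1) := mul_nonneg hC1 (by linarith)
      linarith
    · unfold Xf
      have hpi := Real.pi_pos
      field_simp
      ring
  -- cross terms
  have h3 : Tendsto (fun V => 2 * QS (Zt V) (Zb V (2 * V)) mz (fun s => s.im) f
      (Real.log V + σ) / Xf V) atTop (𝓝 0) := by
    rw [Metric.tendsto_atTop]
    intro ε hε
    obtain ⟨V1, hV1, h4⟩ := cross_small h (η := ε / 16) (by positivity)
    refine ⟨V1, fun V hV => ?_⟩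
    have hV20 : 20 ≤ V := hV1.trans hV
    have hX := Xf_pos (V := V) (by linarith)
    have h5 := h4 V hV (Real.log V + σ) (by linarith)
    rw [Real.dist_eq, sub_zero, abs_div, abs_of_pos hX, div_lt_iff₀ hX, abs_mul,
      abs_of_pos (by norm_num : (0 : ℝ) < 2)]
    have hY : 0 < V * Real.log V := mul_pos (by linarith) (Real.log_pos (by linarith))
    have h6 : ε / 8 * (V * Real.log V) < ε * Xf V := by
      unfold Xf
      have hpi := Real.pi_lt_d2
      have hpi0 := Real.pi_pos
      rw [← mul_div_assoc, lt_div_iff₀ (by positivity)]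
      have : 0 < ε * (V * Real.log V) := by positivity
      nlinarith
    linarith
  -- the ratio of the normalisations
  have hr : Tendsto (fun V : ℝ => Xf (2 * V) / Xf V) atTop (𝓝 2) := by
    have h4 : Tendsto (fun V : ℝ => 2 * (1 + σ * (Real.log V)⁻¹)) atTop (𝓝 (2 * (1 + σ * 0))) :=
      ((hinv.const_mul σ).const_add 1).const_mul 2
    rw [mul_zero, add_zero, mul_one] at h4
    refine h4.congr' ?_
    filter_upwards [eventually_gt_atTop (1 : ℝ)] with V hV
    have hL : 0 < Real.log V := Real.log_pos hV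
    unfold Xf
    rw [Real.log_mul (by norm_num) (by linarith), ← hσd]
    have hpi := Real.pi_pos
    field_simp
    ring
  have h4 : Tendsto (fun V : ℝ => Q2 f (2 * V) (Real.log (2 * V)) / Xf (2 * V)) atTop (𝓝 c) :=
    hlim.comp (tendsto_id.const_mul_atTop (by norm_num : (0 : ℝ) < 2))
  have h5 := ((((h4.mul hr).sub hlim).sub h2').sub h2).sub h3
  have ec : c * 2 - c - 0 - 0 - 0 = c := by ring
  rw [ec] at h5
  refine h5.congr' ?_
  filter_upwards [eventually_ge_atTop (20 : ℝ)] with V hV
  have hX := Xf_pos (V := V) (by linarith)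
  have hX2 := Xf_pos (V := 2 * V) (by linarith)
  have e2 : Real.log (2 * V) = Real.log V + σ := by
    rw [Real.log_mul (by norm_num) (by linarith), add_comm]
  rw [e2, QS_split h.even (by linarith : (1 : ℝ) ≤ V)]
  field_simp
  ring

end Pool.Agent.L5helper41.CV
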